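import Mathlib

/-!
# The space of the corona data on the ball

`Data n N δ` is the space `X_δ` of the holomorphic maps `f = (f_1, …, f_N)` on the unit ball of `ℂⁿ`
with `|f_j| ≤ 1` and `∑ |f_j|² ≥ δ²`, with the topology of locally uniform convergence.
-/

set_option autoImplicit false

open Metric Set MeasureTheory

namespace Pool.Agent.Lib.MP_ca0fc2_an.ZL

open Classical in
/-- The continuous map `f` on the unit ball as a function on `ℂⁿ`; its value outside the ball is `0`. -/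
noncomputable def ext {n N : ℕ}
    (f : C(ball (0 : EuclideanSpace ℂ (Fin n)) 1, EuclideanSpace ℂ (Fin N)))
    (z : EuclideanSpace ℂ (Fin n)) : EuclideanSpace ℂ (Fin N) :=
  if h : z ∈ ball (0 : EuclideanSpace ℂ (Fin n)) 1 then f ⟨z, h⟩ else 0

/-- `X_δ`: the holomorphic maps `f = (f_1, …, f_N)` on the ball with `|f_j| ≤ 1` for all `j` and
`|f| ≥ δ` (euclidean norm). Its topology is the one of `C(ball, ℂᴺ)` (the compact-open topology):
locally uniform convergence. -/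
def Data (n N : ℕ) (δ : ℝ) :
    Set C(ball (0 : EuclideanSpace ℂ (Fin n)) 1, EuclideanSpace ℂ (Fin N)) :=
  {f | DifferentiableOn ℂ (ext f) (ball 0 1) ∧ ∀ z, (∀ j, ‖f z j‖ ≤ 1) ∧ δ ≤ ‖f z‖}

/-- `f_1 h_1 + ⋯ + f_N h_N = 1` has a holomorphic solution `h` with `|h| ≤ A` (euclidean norm) on
`ball ∩ V`. -/
def HasSolution {n N : ℕ}
    (f : C(ball (0 : EuclideanSpace ℂ (Fin n)) 1, EuclideanSpace ℂ (Fin N)))
    (V : Set (EuclideanSpace ℂ (Fin n))) (A : ℝ) : Prop :=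
  ∃ h : EuclideanSpace ℂ (Fin n) → EuclideanSpace ℂ (Fin N),
    DifferentiableOn ℂ h (ball 0 1 ∩ V) ∧
      ∀ z ∈ ball 0 1 ∩ V, ‖h z‖ ≤ A ∧ ∑ j, ext f z j * h z j = 1

/-- All `f_j` are inner for the measure `μ` on the unit sphere: the integrals of `1 - |f_j(r x)|²`
with respect to `μ` are arbitrarily small for suitable `r < 1`. -/
def InnerFor {n N : ℕ} (μ : Measure (sphere (0 : EuclideanSpace ℂ (Fin n)) 1))
    (f : C(ball (0 : EuclideanSpace ℂ (Fin n)) 1, EuclideanSpace ℂ (Fin N))) : Prop :=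
  ∀ ε > 0, ∃ r ∈ Ioo (0 : ℝ) 1, ∀ j,
    ∫ x, (1 - ‖ext f ((r : ℂ) • (x : EuclideanSpace ℂ (Fin n))) j‖ ^ 2) ∂μ < ε

end Pool.Agent.Lib.MP_ca0fc2_an.ZL
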