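import Pool.Agent.Lib.MP_ca0fc2_an.Mg.G089

/-! Campaign ZL (zero-one law), task SlA: data can be approximated by data with room. -/

set_option autoImplicit false

open Metric Set Filter Topology

namespace Pool.Agent.MPca0fc2.ZL

open Pool.Agent.MPca0fc2.TB (En)

variable {n N : ℕ}

/-- PROOF. WLOG `0 ≤ R` (replace `R` by `max R 0`). `f` is uniformly continuous on the compact set `closedBall 0 R`, so there is `r`, `0 < r < 1`, with `‖f (r • z) - f z‖ ≤ ε / 2` for `z ∈ closedBall 0 R` (`‖r z - z‖ ≤ 1 - r`).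
`g z = f (r • z)` is holomorphic on `ball 0 1` and continuous on `closedBall 0 1` (it is mapped into `closedBall 0 r`), where `|g_j| ≤ 1` and `δ ≤ ‖g‖ ≤ M` (compactness), `M ≥ 1`.
Case 1: there are `z₀ ∈ ball 0 1` and `j` with `‖f z₀ j‖ = 1`. Then `z₀` is a maximum of the modulus of the coordinate `f j` on the connected open ball, so `f j` is constant there (`Complex.eqOn_of_isPreconnected_of_isMaxOn_norm`, `ℂ` is strictly convex), `‖f z j‖ = 1`, so `1 ≤ ‖f z‖` on the ball and `1 ≤ ‖g z‖` on `closedBall 0 1`.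
Take `t = min (ε / (2 M)) ((1 - δ) / 2)`, `f' = (1 - t) • g`, `η = min t ((1 - δ) / 2)`: `‖f' z j‖ ≤ 1 - t`, `‖f' z‖ ≥ 1 - t ≥ δ + (1 - δ) / 2`, `‖f' z - g z‖ ≤ t M ≤ ε / 2`.
Case 2: `‖f z j‖ < 1` for all `j` and all `z` in the ball. So `‖g z j‖ < 1` on the compact set `closedBall 0 1`, and (maximum of continuous functions, finitely many `j`) there is `0 ≤ s < 1` with `‖g z j‖ ≤ s` for all `j` and `z ∈ closedBall 0 1`. Choose `0 < t ≤ ε / (2 M)` with `(1 + t) s < 1`, `f' = (1 + t) • g`: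
`‖f' z j‖ ≤ (1 + t) s`, `‖f' z‖ ≥ (1 + t) δ`, `‖f' - g‖ ≤ t M ≤ ε / 2`. -/
theorem slack {δ : ℝ} (hδ : 0 < δ) (hδ1 : δ < 1) {f : En n → En N} (hf : DifferentiableOn ℂ f (ball 0 1))
    (hfb : ∀ z ∈ ball (0 : En n) 1, (∀ j, ‖f z j‖ ≤ 1) ∧ δ ≤ ‖f z‖) {R ε : ℝ} (hR : R < 1) (hε : 0 < ε) :
    ∃ f' : En n → En N, AU δ f' ∧ ∀ z ∈ closedBall (0 : En n) R, ‖f' z - f z‖ ≤ ε := by
  classical
  set R0 : ℝ := max R 0 with hR0
  have hR01 : R0 < 1 := max_lt hR one_pos
  have hfc : ContinuousOn f (ball 0 1) := hf.continuousOn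
  have hsub : closedBall (0 : En n) R0 ⊆ ball 0 1 := closedBall_subset_ball hR01
  have huc : UniformContinuousOn f (closedBall (0 : En n) R0) :=
    (isCompact_closedBall (0 : En n) R0).uniformContinuousOn_of_continuous (hfc.mono hsub)
  obtain ⟨θ, hθ, hθf⟩ := Metric.uniformContinuousOn_iff.1 huc (ε / 2) (by positivity)
  set r : ℝ := max (1 - θ / 2) (1 / 2) with hr
  have hr0 : 0 < r := lt_of_lt_of_le (by norm_num) (le_max_right _ _)
  have hr1 : r < 1 := max_lt (by linarith) (by norm_num)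
  have hr2 : 1 - r ≤ θ / 2 := by
    have := le_max_left (1 - θ / 2) (1 / 2)
    linarith
  have hrn : ‖(r : ℂ)‖ = r := by rw [Complex.norm_real, Real.norm_of_nonneg hr0.le]
  -- the dilated map
  set g : En n → En N := fun z => f ((r : ℂ) • z) with hg
  have hmap : MapsTo (fun z : En n => (r : ℂ) • z) (closedBall 0 1) (ball 0 1) := by
    intro z hz
    rw [mem_closedBall_zero_iff] at hz
    rw [mem_ball_zero_iff, norm_smul, hrn]
    nlinarith [norm_nonneg z]
  have hgd : DifferentiableOn ℂ g (ball 0 1) :=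
    hf.comp ((differentiable_id.const_smul (r : ℂ)).differentiableOn)
      (fun z hz => hmap (ball_subset_closedBall hz))
  have hgc : ContinuousOn g (closedBall 0 1) :=
    hfc.comp ((continuous_const_smul (r : ℂ)).continuousOn) hmap
  have hgb : ∀ z ∈ closedBall (0 : En n) 1, (∀ j, ‖g z j‖ ≤ 1) ∧ δ ≤ ‖g z‖ :=
    fun z hz => hfb _ (hmap hz)
  have hgf : ∀ z ∈ closedBall (0 : En n) R, ‖g z - f z‖ ≤ ε / 2 := by
    intro z hz
    rw [mem_closedBall_zero_iff] at hz
    have hz0 : ‖z‖ ≤ R0 := hz.trans (le_max_left _ _)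
    have hz1 : ‖z‖ ≤ 1 := hz0.trans hR01.le
    have h1 : (r : ℂ) • z ∈ closedBall (0 : En n) R0 := by
      rw [mem_closedBall_zero_iff, norm_smul, hrn]
      nlinarith [norm_nonneg z]
    have h2 : z ∈ closedBall (0 : En n) R0 := by rwa [mem_closedBall_zero_iff]
    have h3 : dist ((r : ℂ) • z) z < θ := by
      rw [dist_eq_norm]
      have h4 : (r : ℂ) • z - z = ((r - 1 : ℝ) : ℂ) • z := by
        rw [Complex.ofReal_sub, sub_smul, Complex.ofReal_one, one_smul]
      rw [h4, norm_smul, Complex.norm_real, Real.norm_eq_abs, abs_of_neg (by linarith)]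
      nlinarith [norm_nonneg z]
    have h5 := hθf _ h1 _ h2 h3
    rw [dist_eq_norm] at h5
    exact h5.le
  obtain ⟨M0, hM0⟩ := (isCompact_closedBall (0 : En n) 1).exists_bound_of_continuousOn hgc
  set M : ℝ := max M0 1 with hMdef
  have hM1 : 1 ≤ M := le_max_right _ _
  have hMb : ∀ z ∈ closedBall (0 : En n) 1, ‖g z‖ ≤ M := fun z hz =>
    (hM0 z hz).trans (le_max_left _ _)
  have hR1 : closedBall (0 : En n) R ⊆ closedBall 0 1 := closedBall_subset_closedBall hR.le
  -- multiples of `g`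
  have key : ∀ c t : ℝ, 0 < t → t ≤ ε / (2 * M) → |c - 1| ≤ t → 0 ≤ c →
      (∀ z ∈ closedBall (0 : En n) 1, (∀ j, c * ‖g z j‖ < 1) ∧ δ < c * ‖g z‖) →
      ∃ f' : En n → En N, AU δ f' ∧ ∀ z ∈ closedBall (0 : En n) R, ‖f' z - f z‖ ≤ ε := by
    intro c t ht0 ht hct hc hcc
    have hcn : ‖(c : ℂ)‖ = c := by rw [Complex.norm_real, Real.norm_of_nonneg hc]
    have hcg : ContinuousOn (fun z => (c : ℂ) • g z) (closedBall (0 : En n) 1) :=
      hgc.const_smul (c : ℂ)
    have hdg : DifferentiableOn ℂ (fun z => (c : ℂ) • g z) (ball (0 : En n) 1) :=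
      hgd.const_smul (c : ℂ)
    refine ⟨fun z => (c : ℂ) • g z, ⟨hdg, hcg, ?_⟩, ?_⟩
    · intro z hz
      refine ⟨fun j => ?_, ?_⟩
      · show ‖(c : ℂ) * g z j‖ < 1
        rw [norm_mul, hcn]
        exact (hcc z hz).1 j
      · rw [norm_smul, hcn]
        exact (hcc z hz).2
    · intro z hz
      have h1 : (c : ℂ) • g z - f z = ((c - 1 : ℝ) : ℂ) • g z + (g z - f z) := by
        rw [Complex.ofReal_sub, sub_smul, Complex.ofReal_one, one_smul]
        abel
      show ‖(c : ℂ) • g z - f z‖ ≤ ε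
      rw [h1]
      have h2 : ‖((c - 1 : ℝ) : ℂ) • g z‖ ≤ ε / 2 := by
        rw [norm_smul, Complex.norm_real, Real.norm_eq_abs]
        calc |c - 1| * ‖g z‖ ≤ t * M :=
              mul_le_mul hct (hMb z (hR1 hz)) (norm_nonneg _) ht0.le
          _ ≤ ε / (2 * M) * M := mul_le_mul_of_nonneg_right ht (by linarith)
          _ = ε / 2 := by
              have : M ≠ 0 := by linarith
              field_simp
      calc ‖((c - 1 : ℝ) : ℂ) • g z + (g z - f z)‖
          ≤ ‖((c - 1 : ℝ) : ℂ) • g z‖ + ‖g z - f z‖ := norm_add_le _ _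
        _ ≤ ε / 2 + ε / 2 := add_le_add h2 (hgf z hz)
        _ = ε := by ring
  have hεM : 0 < ε / (2 * M) := by positivity
  by_cases hcase : ∃ z₀ ∈ ball (0 : En n) 1, ∃ j, ‖f z₀ j‖ = 1
  · obtain ⟨z₀, hz₀, j, hj⟩ := hcase
    have hdj : DifferentiableOn ℂ (fun z => f z j) (ball 0 1) := by
      have h1 : DifferentiableOn ℂ (fun z => (EuclideanSpace.proj j : En N →L[ℂ] ℂ) (f z))
          (ball 0 1) :=
        (EuclideanSpace.proj j : En N →L[ℂ] ℂ).differentiable.comp_differentiableOn hf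
      exact h1
    have hmax : IsMaxOn (norm ∘ fun z => f z j) (ball (0 : En n) 1) z₀ := by
      intro z hz
      show ‖f z j‖ ≤ ‖f z₀ j‖
      rw [hj]
      exact (hfb z hz).1 j
    have hconst := Complex.norm_eqOn_of_isPreconnected_of_isMaxOn
      (convex_ball (0 : En n) 1).isPreconnected isOpen_ball hdj hz₀ hmax
    have hg1 : ∀ z ∈ closedBall (0 : En n) 1, 1 ≤ ‖g z‖ := by
      intro z hz
      have h1 := hconst (hmap hz)
      have h2 : ‖g z j‖ = 1 := by
        have h3 : ‖f ((r : ℂ) • z) j‖ = ‖f z₀ j‖ := h1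
        rw [hj] at h3
        exact h3
      rw [← h2]
      exact PiLp.norm_apply_le (g z) j
    set t : ℝ := min (ε / (2 * M)) ((1 - δ) / 2) with ht
    have ht0 : 0 < t := lt_min hεM (by linarith)
    have ht1 : t ≤ ε / (2 * M) := min_le_left _ _
    have ht2 : t ≤ (1 - δ) / 2 := min_le_right _ _
    refine key (1 - t) t ht0 ht1 ?_ (by linarith) ?_
    · rw [show 1 - t - 1 = -t by ring, abs_neg, abs_of_pos ht0]
    · intro z hz
      refine ⟨fun j => ?_, ?_⟩
      · have h1 := (hgb z hz).1 j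
        nlinarith [norm_nonneg (g z j)]
      · have h1 := hg1 z hz
        nlinarith
  · have hlt : ∀ z ∈ ball (0 : En n) 1, ∀ j, ‖f z j‖ < 1 := by
      intro z hz j
      exact lt_of_le_of_ne ((hfb z hz).1 j) fun h => hcase ⟨z, hz, j, h⟩
    have hsj : ∀ j : Fin N, ∃ s : ℝ, s < 1 ∧ ∀ z ∈ closedBall (0 : En n) 1, ‖g z j‖ ≤ s := by
      intro j
      have hcj : ContinuousOn (fun z => ‖g z j‖) (closedBall (0 : En n) 1) := by
        have h1 : ContinuousOn (fun z => (EuclideanSpace.proj j : En N →L[ℂ] ℂ) (g z))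
            (closedBall 0 1) :=
          (EuclideanSpace.proj j : En N →L[ℂ] ℂ).continuous.comp_continuousOn hgc
        exact h1.norm
      obtain ⟨z1, hz1, hm⟩ := (isCompact_closedBall (0 : En n) 1).exists_isMaxOn
        ⟨0, mem_closedBall_self zero_le_one⟩ hcj
      exact ⟨‖g z1 j‖, hlt _ (hmap hz1) j, fun z hz => hm hz⟩
    choose sj hsj1 hsj2 using hsj
    have hne : (insert (0 : ℝ) (Finset.univ.image sj)).Nonempty := Finset.insert_nonempty _ _
    set s : ℝ := (insert (0 : ℝ) (Finset.univ.image sj)).max' hne with hs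
    have hs0 : 0 ≤ s := Finset.le_max' _ _ (Finset.mem_insert_self _ _)
    have hs1 : s < 1 := by
      have h1 := Finset.max'_mem _ hne
      rw [← hs, Finset.mem_insert, Finset.mem_image] at h1
      rcases h1 with h1 | ⟨j, _, h1⟩
      · rw [h1]; exact one_pos
      · rw [← h1]; exact hsj1 j
    have hsb : ∀ z ∈ closedBall (0 : En n) 1, ∀ j, ‖g z j‖ ≤ s := fun z hz j =>
      (hsj2 j z hz).trans (Finset.le_max' _ _
        (Finset.mem_insert_of_mem (Finset.mem_image_of_mem _ (Finset.mem_univ j))))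
    set t : ℝ := min (ε / (2 * M)) ((1 - s) / 2) with ht
    have ht0 : 0 < t := lt_min hεM (by linarith)
    have ht1 : t ≤ ε / (2 * M) := min_le_left _ _
    have ht2 : t ≤ (1 - s) / 2 := min_le_right _ _
    refine key (1 + t) t ht0 ht1 ?_ (by linarith) ?_
    · rw [show 1 + t - 1 = t by ring, abs_of_pos ht0]
    · intro z hz
      refine ⟨fun j => ?_, ?_⟩
      · have h1 := hsb z hz j
        have h2 : (1 + t) * ‖g z j‖ ≤ (1 + t) * s :=
          mul_le_mul_of_nonneg_left h1 (by linarith)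
        nlinarith
      · have h1 := (hgb z hz).2
        nlinarith

end Pool.Agent.MPca0fc2.ZL
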